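import Mathlib
import Pool.Agent.Results.MP_3fd305_al.NotFinitelyBased
import Pool.Agent.Y355.AV.Core

set_option autoImplicit false

/-!
The product variety `𝔄𝔑₄` has continuum many locally finite subvarieties of exponent dividing `16`:
they are defined, for every set `A` of natural numbers, by the laws
`[[z₀,z₁,z₂,z₃,z₄],[z₅,z₆,z₇,z₈,z₉]]`, `x ^ 16` and, for `q + 1` with `q` in `A`,
`[[z₀,z₁,z₂,z₃,z₄], [x₀,x₁,a₀,a₀], …, [x_(q+1),x₀,a_(q+1),a_(q+1)]]`.  These laws are independent.
-/

namespace Pool.Agent.Results.MP_3fd305_al.LocallyFiniteContinuum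

open Pool.Agent.LawsFI (F cm map_cm)
open Pool.Agent.LawsFK (e5 map_e5 van wrd map_van)
open Pool.Agent.Y355.AV
open Pool.Agent.Results.MP_3fd305_al.NotFinitelyBased (IsLaw InVariety InAN VS VS_mono quot_in
  law_of_mem van_an ulift_iff)

universe u

/-- the variety defined by `W` consists of locally finite groups of exponent dividing `16` which
have an abelian normal subgroup with quotient nilpotent of class at most four -/
def Small (W : Set (FreeGroup ℕ)) : Prop :=
  ∀ (G : Type u) [Group G], InVariety W G → InAN 4 G ∧ (∀ g : G, g ^ 16 = 1) ∧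
    ∀ H : Subgroup G, H.FG → Finite H

/-- the variety defined by `W` is contained in the one defined by `W'` -/
def Sub (W W' : Set (FreeGroup ℕ)) : Prop :=
  ∀ (G : Type u) [Group G], InVariety W G → InVariety W' G

/-- the variety defined by `W` is finitely based -/
def FinBased (W : Set (FreeGroup ℕ)) : Prop :=
  ∃ S : Set (FreeGroup ℕ), S.Finite ∧ ∀ (G : Type u) [Group G], InVariety S G ↔ InVariety W G

/-- the defining laws -/
def WA (A : Set ℕ) : Set F :=
  {w | w = van ∨ w = FreeGroup.of 0 ^ 16 ∨ ∃ q ∈ A, w = wrd (q+1)}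

theorem WA_mono {A B : Set ℕ} (h : A ⊆ B) : WA A ⊆ WA B := by
  rintro w (rfl | rfl | ⟨q, hq, rfl⟩)
  · exact Or.inl rfl
  · exact Or.inr (Or.inl rfl)
  · exact Or.inr (Or.inr ⟨q, h hq, rfl⟩)

theorem solv_of_an {G : Type u} [Group G] (h : InAN 4 G) : Group.IsSolvable G := by
  obtain ⟨K, hK, h1, h2⟩ := h
  haveI : Group.IsNilpotent (G ⧸ K) := nilpotent_iff_lowerCentralSeries.2 ⟨4, h2⟩
  haveI : Group.IsSolvable (G ⧸ K) := inferInstance
  haveI : Group.IsSolvable K := by
    letI : CommGroup K := { (inferInstance : Group K) with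
      mul_comm := fun a b => Subtype.ext (h1 a a.2 b b.2) }
    infer_instance
  exact Group.isSolvable_of_ker_le_range K.subtype (QuotientGroup.mk' K) (by simp)

theorem small (A : Set ℕ) : Small.{u} (WA A) := by
  intro G _ h
  have h1 : InAN 4 G := van_an (h van (Or.inl rfl))
  have h2 : ∀ g : G, g ^ 16 = 1 := by
    intro g
    have := h _ (Or.inr (Or.inl rfl)) (FreeGroup.lift fun _ => g)
    simpa using this
  refine ⟨h1, h2, fun H hH => ?_⟩
  haveI := solv_of_an h1
  have hs : Group.IsSolvable H := inferInstance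
  refine finite_of_solvable hs ((Group.fg_iff_subgroup_fg H).2 hH) ?_
  intro g
  refine isOfFinOrder_iff_pow_eq_one.2 ⟨16, by norm_num, Subtype.ext ?_⟩
  simpa using h2 (g : G)

theorem GA_in (A : Set ℕ) {B : Set ℕ} (h : ∀ q ∈ B, q + 1 ∈ A) : InVariety (WA B) (GA A) := by
  rintro w (rfl | rfl | ⟨q, hq, rfl⟩) f
  · exact GA_van _ f
  · rw [map_pow]; exact GA_pow16 A _
  · exact GA_wrd (h q hq) f

/-- the laws are independent -/
theorem not_law {B : Set ℕ} {N : ℕ} (hN : N ∉ B) :
    InVariety (WA B) (GA ({N+1}ᶜ)) ∧ ¬ IsLaw (wrd (N+1)) (GA ({N+1}ᶜ)) := by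
  constructor
  · apply GA_in
    intro q hq
    simp only [Set.mem_compl_iff, Set.mem_singleton_iff, Nat.add_right_cancel_iff]
    rintro rfl
    exact hN hq
  · intro h
    obtain ⟨φ, hφ⟩ := GA_not_wrd (N := N+1) (by omega) (A := {N+1}ᶜ) (by simp)
    exact hφ (h φ)

theorem sub_iff (A B : Set ℕ) : Sub.{u} (WA A) (WA B) ↔ B ⊆ A := by
  constructor
  · intro h N hN
    by_contra hA
    obtain ⟨h1, h2⟩ := not_law hA
    have h3 := (ulift_iff.{u} _ _).1 (h _ ((ulift_iff.{u} (WA A) _).2 h1))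
    exact h2 (h3 _ (Or.inr (Or.inr ⟨N, hN, rfl⟩)))
  · intro h G _ hG w hw
    exact hG w (WA_mono h hw)

theorem mem_VS_fin {A : Set ℕ} {w : F} (hw : w ∈ VS (WA A)) :
    ∃ B : Set ℕ, B.Finite ∧ B ⊆ A ∧ w ∈ VS (WA B) := by
  unfold VS at hw
  induction hw using Subgroup.closure_induction with
  | mem x hx =>
    obtain ⟨s, hs, ψ, rfl⟩ := hx
    rcases hs with rfl | rfl | ⟨q, hq, rfl⟩
    · exact ⟨∅, Set.finite_empty, Set.empty_subset _,
        Subgroup.subset_closure ⟨van, Or.inl rfl, ψ, rfl⟩⟩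
    · exact ⟨∅, Set.finite_empty, Set.empty_subset _,
        Subgroup.subset_closure ⟨_, Or.inr (Or.inl rfl), ψ, rfl⟩⟩
    · exact ⟨{q}, Set.finite_singleton _, Set.singleton_subset_iff.2 hq,
        Subgroup.subset_closure ⟨_, Or.inr (Or.inr ⟨q, rfl, rfl⟩), ψ, rfl⟩⟩
  | one => exact ⟨∅, Set.finite_empty, Set.empty_subset _, Subgroup.one_mem _⟩
  | mul x y _ _ hx hy =>
    obtain ⟨B, hB, hBA, hB1⟩ := hx
    obtain ⟨B', hB', hBA', hB1'⟩ := hy
    exact ⟨B ∪ B', hB.union hB', Set.union_subset hBA hBA', Subgroup.mul_mem _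
      (VS_mono (WA_mono Set.subset_union_left) hB1)
      (VS_mono (WA_mono Set.subset_union_right) hB1')⟩
  | inv x _ hx =>
    obtain ⟨B, hB, hBA, hB1⟩ := hx
    exact ⟨B, hB, hBA, Subgroup.inv_mem _ hB1⟩

theorem finite_mem {A : Set ℕ} {S : Set F} (hS : S.Finite) (h : ∀ w ∈ S, w ∈ VS (WA A)) :
    ∃ B : Set ℕ, B.Finite ∧ B ⊆ A ∧ ∀ w ∈ S, w ∈ VS (WA B) := by
  choose! r hr1 hr2 hr3 using fun w (hw : w ∈ S) => mem_VS_fin (h w hw)
  refine ⟨⋃ w ∈ S, r w, hS.biUnion hr1, Set.iUnion₂_subset hr2, fun w hw => ?_⟩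
  exact VS_mono (WA_mono (Set.subset_biUnion_of_mem (u := r) hw)) (hr3 w hw)

theorem finBased_iff (A : Set ℕ) : FinBased.{u} (WA A) ↔ A.Finite := by
  constructor
  · rintro ⟨S, hS, hiff⟩
    have hiff0 : ∀ (G : Type) [Group G], InVariety S G ↔ InVariety (WA A) G := by
      intro G _
      rw [← ulift_iff.{u} S G, ← ulift_iff.{u} (WA A) G]
      exact hiff _
    have h1 : ∀ w ∈ S, w ∈ VS (WA A) := by
      intro w hw
      have h2 := (hiff0 (F ⧸ VS (WA A))).mpr (quot_in (WA A)) w hw
        (QuotientGroup.mk' (VS (WA A)))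
      simpa using h2
    obtain ⟨B, hB, hBA, hBS⟩ := finite_mem hS h1
    refine hB.subset ?_
    rw [← sub_iff.{0} B A]
    intro G _ hG
    exact (hiff0 G).1 fun w hw => law_of_mem (hBS w hw) hG
  · intro hA
    refine ⟨WA A, ?_, fun G _ => Iff.rfl⟩
    have : WA A = {van, FreeGroup.of 0 ^ 16} ∪ (fun q => wrd (q+1)) '' A := by
      ext w
      constructor
      · rintro (rfl | rfl | ⟨q, hq, rfl⟩)
        · exact Or.inl (Or.inl rfl)
        · exact Or.inl (Or.inr rfl)
        · exact Or.inr ⟨q, hq, rfl⟩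
      · rintro ((rfl | rfl) | ⟨q, hq, rfl⟩)
        · exact Or.inl rfl
        · exact Or.inr (Or.inl rfl)
        · exact Or.inr (Or.inr ⟨q, hq, rfl⟩)
    rw [this]
    exact (Set.toFinite _).union (hA.image _)

/-- **Continuum many locally finite `𝔄𝔑₄`-varieties of exponent dividing `16`.**  There are sets
`W A` of words, one for every set `A` of natural numbers, such that every group in the variety
defined by `W A` is locally finite of exponent dividing `16` and has an abelian normal subgroup with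
quotient nilpotent of class at most four, such that the variety of `W A` is contained in the variety
of `W B` if and only if `B` is contained in `A`, and such that the variety of `W A` is finitely
based if and only if `A` is finite. -/
theorem result : ∃ W : Set ℕ → Set (FreeGroup ℕ),
    (∀ A, Small.{u} (W A)) ∧ (∀ A B, Sub.{u} (W A) (W B) ↔ B ⊆ A) ∧
    ∀ A, FinBased.{u} (W A) ↔ A.Finite :=
  ⟨WA, small, sub_iff, finBased_iff⟩

end Pool.Agent.Results.MP_3fd305_al.LocallyFiniteContinuum
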